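import Pool.Agent.EGF.Stmts

/-!
# Squad EGF, row REC
-/

set_option autoImplicit false

namespace Pool.Agent.EGF.H10

open Finset

theorem rec_ : RecStmt := by
  classical
  intro V _ k c U θ hU
  obtain ⟨W, hW, hmax⟩ := Finset.exists_max_image (U.powerset.filter fun W => W.Nonempty)
    (fun W => Real.log W.card - θ * (pal c W).card)
    ⟨U, by
      rw [Finset.mem_filter, Finset.mem_powerset]
      exact ⟨Finset.Subset.refl U, hU⟩⟩
  rw [Finset.mem_filter, Finset.mem_powerset] at hW
  refine ⟨W, hW.1, ⟨hW.2, fun W' hW' hne => hmax W' ?_⟩, hmax U ?_⟩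
  · rw [Finset.mem_filter, Finset.mem_powerset]
    exact ⟨hW'.trans hW.1, hne⟩
  · rw [Finset.mem_filter, Finset.mem_powerset]
    exact ⟨Finset.Subset.refl U, hU⟩

end Pool.Agent.EGF.H10
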